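import Mathlib

/-!
# Bucic's question on monochromatic packings in dense regular graphs: disproof

Host graph. Take a red `s`-regular graph `F` of large girth on a set `A` of `m` vertices, a set `B`
of `m - s` vertices, and join `A` completely to `B` by blue edges. The result is `m`-regular on
`2 m - s` vertices. If every component of `H` has two colour classes of equal size and `H` contains a
cycle, then there is no red copy of `H`, and every blue copy of `H` meets `A` and `B` in equally many
vertices. Hence at least `s` vertices of `A` stay uncovered, and `s` is arbitrary.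

The graph `F` is the Cayley graph of the permutation group of the set of reduced words of length at
most `g` over `s` letters, with respect to the `s` involutions toggling the first letter.
-/

set_option autoImplicit false

open SimpleGraph

namespace Pool.Agent.Results.MP_b9e70b_co.BucicFails

/-- `P` is a monochromatic `H`-packing in the graph `G` whose edges are coloured by `χ`: a family of
pairwise vertex-disjoint subgraphs of `G`, each isomorphic to `H` and each having all its edges of
one colour. -/
structure IsMonoPacking {W V : Type} (H : SimpleGraph W) {G : SimpleGraph V} {r : ℕ}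
    (χ : G.edgeSet → Fin r) (P : Set G.Subgraph) : Prop where
  iso : ∀ K ∈ P, Nonempty (H ≃g K.coe)
  mono : ∀ K ∈ P, ∃ i : Fin r, ∀ e : G.edgeSet, (e : Sym2 V) ∈ K.edgeSet → χ e = i
  disj : ∀ K ∈ P, ∀ L ∈ P, K ≠ L → Disjoint K.verts L.verts

/-- The vertices of `G` that lie in no member of the family `P`. -/
def uncovered {V : Type} {G : SimpleGraph V} (P : Set G.Subgraph) : Set V :=
  {v | ∀ K ∈ P, v ∉ K.verts}

/-- The conclusion of Q1 for the graph `H`, `r` colours and density `c`. -/
def BoundedLeftover {W : Type} (H : SimpleGraph W) (r : ℕ) (c : ℝ) : Prop :=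
  ∃ C : ℝ, 0 < C ∧ ∀ (n d : ℕ) (G : SimpleGraph (Fin n)),
    (∀ v, (G.neighborSet v).ncard = d) → c * n ≤ d →
      ∀ χ : G.edgeSet → Fin r, ∃ P : Set G.Subgraph,
        IsMonoPacking H χ P ∧ ((uncovered P).ncard : ℝ) ≤ C

/-- Every bipartition of `H` has two classes of the same size: whenever each edge of `H` has exactly
one end in `A`, the sets `A` and its complement have the same number of vertices. For a bipartite `H`
this says that every connected component of `H` has two colour classes of equal size. -/
def AllBipartitionsBalanced {W : Type} (H : SimpleGraph W) : Prop :=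
  ∀ A : Set W, (∀ v w, H.Adj v w → (v ∈ A ↔ w ∉ A)) → A.ncard = Aᶜ.ncard

/-- The assertion of Q1: for every (nonempty, finite) bipartite graph `H`, every `r ≥ 2` and every
`0 < c < 1` there is a constant `C` as required. -/
def BucicQ1 : Prop :=
  ∀ (W : Type) [Finite W] [Nonempty W] (H : SimpleGraph W), H.IsBipartite →
    ∀ r : ℕ, 2 ≤ r → ∀ c : ℝ, 0 < c → c < 1 → BoundedLeftover H r c

/-- Reduced words of length at most `g` over an alphabet with `s` letters. -/
abbrev RW (s g : ℕ) : Type :=
  {w : List (Fin s) // w.length ≤ g ∧ w.IsChain (fun a b => a ≠ b)}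

instance (s g : ℕ) : Finite (RW s g) := by
  have h : Set.Finite {w : List (Fin s) | w.length ≤ g} := List.finite_length_le (Fin s) g
  exact (h.subset (fun w hw => hw.1) : Set.Finite
    {w : List (Fin s) | w.length ≤ g ∧ w.IsChain (fun a b => a ≠ b)}).to_subtype

/-- Toggle the first letter `i` of a reduced word. -/
def tog {s g : ℕ} (i : Fin s) (w : RW s g) : RW s g :=
  if h : w.1.head? = some i then
    ⟨w.1.tail, by
      refine ⟨?_, ?_⟩
      · have := w.2.1
        rw [List.length_tail]; omega
      · exact w.2.2.tail⟩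
  else if h2 : w.1.length < g then
    ⟨i :: w.1, by
      refine ⟨by simpa using h2, ?_⟩
      rw [List.isChain_cons]
      refine ⟨?_, w.2.2⟩
      intro b hb hib
      subst hib
      exact h (by simpa using hb)⟩
  else w

theorem tog_invol {s g : ℕ} (i : Fin s) : Function.Involutive (tog (g := g) i) := by
  rintro ⟨w, hw1, hw2⟩
  rcases w with _ | ⟨a, l⟩
  · by_cases hg : 0 < g
    · simp [tog, hg]
    · simp [tog, hg]
  · by_cases ha : a = i
    · subst ha
      have hl : l.head? ≠ some a := by
        rw [List.isChain_cons] at hw2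
        intro h
        exact hw2.1 a (by simpa using h) rfl
      have hlen : l.length < g := by simpa using hw1
      simp [tog, hl, hlen]
    · by_cases hg : (a :: l).length < g
      · have hg' : l.length + 1 < g := by simpa using hg
        simp [tog, ha, hg']
      · have hg' : ¬ (l.length + 1 < g) := by simpa using hg
        simp [tog, ha, hg']

/-- The involution of the set of reduced words given by letter `i`. -/
def pm {s g : ℕ} (i : Fin s) : Equiv.Perm (RW s g) := (tog_invol i).toPerm

/-- the empty word -/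
def emp (s g : ℕ) : RW s g := ⟨[], by simp⟩

theorem pm_emp {s g : ℕ} (hg : 0 < g) (i : Fin s) : (pm i (emp s g)).1 = [i] := by
  simp [pm, emp, tog, hg]

theorem pm_mul_self {s g : ℕ} (i : Fin s) : pm (g := g) i * pm i = 1 := by
  ext w : 1
  simp only [Equiv.Perm.mul_apply, Equiv.Perm.one_apply]
  exact tog_invol i w

/-- The Cayley graph. -/
def cay (s g : ℕ) : SimpleGraph (Equiv.Perm (RW s g)) where
  Adj σ τ := σ ≠ τ ∧ ∃ i, τ = pm i * σ
  symm := ⟨by
    rintro σ τ ⟨hne, i, rfl⟩
    refine ⟨hne.symm, i, ?_⟩
    rw [← mul_assoc, pm_mul_self, one_mul]⟩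
  loopless := ⟨fun σ h => h.1 rfl⟩

theorem cay_adj {s g : ℕ} (hg : 0 < g) (σ τ : Equiv.Perm (RW s g)) :
    (cay s g).Adj σ τ ↔ ∃ i, τ = pm i * σ := by
  constructor
  · exact fun h => h.2
  · rintro ⟨i, rfl⟩
    refine ⟨?_, i, rfl⟩
    intro h
    have h1 : pm i = (1 : Equiv.Perm (RW s g)) := by
      have := congrArg (fun x => x * σ⁻¹) h
      simpa using this.symm
    have h2 := pm_emp hg i
    rw [h1] at h2
    simp [emp] at h2

theorem cay_degree {s g : ℕ} (hg : 0 < g) (σ : Equiv.Perm (RW s g)) :
    ((cay s g).neighborSet σ).ncard = s := by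
  have h : (cay s g).neighborSet σ = Set.range (fun i : Fin s => pm i * σ) := by
    ext τ
    rw [SimpleGraph.mem_neighborSet, cay_adj hg]
    simp [eq_comm]
  rw [h, ← Set.image_univ, Set.ncard_image_of_injective]
  · simp
  · intro i j hij
    have hij' : pm (g := g) i = pm j := by simpa using hij
    have h1 := pm_emp hg i
    rw [hij', pm_emp hg j] at h1
    simpa using h1.symm

/-- along a trail of length at most `g`, the word read off has full length -/
theorem trail_word {s g : ℕ} (hg : 0 < g) {u v : Equiv.Perm (RW s g)} (p : (cay s g).Walk u v)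
    (hp : p.IsTrail) (hl : p.length ≤ g) :
    ((u * v⁻¹) (emp s g)).1.length = p.length ∧
      ∀ i, ((u * v⁻¹) (emp s g)).1.head? = some i → s(pm i * u, u) ∈ p.edges := by
  induction p with
  | nil => simp [emp]
  | @cons u u' v h p ih =>
    rw [Walk.isTrail_cons] at hp
    have hl' : p.length + 1 ≤ g := by simpa using hl
    obtain ⟨ih1, ih2⟩ := ih hp.1 (by omega)
    obtain ⟨i, hi⟩ := (cay_adj hg u u').1 h
    have hu : u = pm i * u' := by
      rw [hi, ← mul_assoc, pm_mul_self, one_mul]
    have hhead : ((u' * v⁻¹) (emp s g)).1.head? ≠ some i := by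
      intro hh
      have := ih2 i hh
      rw [← hu] at this
      exact hp.2 this
    have hlen : ((u' * v⁻¹) (emp s g)).1.length < g := by omega
    have key : ((u * v⁻¹) (emp s g)).1 = i :: ((u' * v⁻¹) (emp s g)).1 := by
      rw [hu, mul_assoc, Equiv.Perm.mul_apply]
      generalize (u' * v⁻¹) (emp s g) = w at *
      simp [pm, tog, hhead, hlen]
    rw [key]
    refine ⟨by rw [List.length_cons, ih1, Walk.length_cons], ?_⟩
    intro j hj
    have hj' : i = j := by simpa using hj
    subst hj'
    rw [Walk.edges_cons, ← hi]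
    rw [Sym2.eq_swap]
    exact List.mem_cons_self

theorem cay_cycle {s g : ℕ} (hg : 0 < g) {u : Equiv.Perm (RW s g)} (p : (cay s g).Walk u u)
    (hp : p.IsCycle) : g < p.length := by
  by_contra hcon
  have h := (trail_word hg p hp.isCircuit.isTrail (by omega)).1
  have h3 := hp.three_le_length
  simp [emp] at h
  omega


/-- no vertex is isolated if all bipartitions are balanced -/
theorem exists_adj {W : Type} [Finite W] (H : SimpleGraph W) (hb : H.IsBipartite)
    (hbal : AllBipartitionsBalanced H) (v : W) :
    ∃ w, H.Adj v w := by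
  classical
  by_contra hcon
  push Not at hcon
  obtain ⟨f0⟩ := hb
  have hA : ∀ a b, H.Adj a b → (a ∈ {w | f0 w = 0} ↔ b ∉ {w | f0 w = 0}) := by
    intro a b hab
    have h1 := f0.valid hab
    simp only [Set.mem_ofPred_eq]
    omega
  -- wlog the vertex lies in the set
  have key : ∀ A : Set W, (∀ a b, H.Adj a b → (a ∈ A ↔ b ∉ A)) → v ∈ A → False := by
    intro A hA hv
    have hA' : ∀ a b, H.Adj a b → (a ∈ A \ {v} ↔ b ∉ A \ {v}) := by
      intro a b hab
      have ha : a ≠ v := by
        rintro rfl; exact hcon b hab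
      have hb : b ≠ v := by
        rintro rfl; exact hcon a hab.symm
      have := hA a b hab
      simp [ha, hb, this]
    have e1 := hbal A hA
    have e2 := hbal _ hA'
    have h1 : A = insert v (A \ {v}) := by
      rw [Set.insert_sdiff_singleton, Set.insert_eq_of_mem hv]
    have h2 : (A \ {v})ᶜ = insert v Aᶜ := by
      ext w
      by_cases hw : w = v
      · subst hw; simp
      · simp [hw]
    rw [h1, Set.ncard_insert_of_notMem (by simp) (Set.toFinite _), ← h1] at e1
    rw [h2, Set.ncard_insert_of_notMem (by simp [hv]) (Set.toFinite _)] at e2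
    omega
  by_cases hf : v ∈ {w | f0 w = 0}
  · exact key _ hA hf
  · refine key {w | f0 w = 0}ᶜ ?_ hf
    intro a b hab
    have := hA a b hab
    simp only [Set.mem_compl_iff]
    tauto

/-- The counting lemma. -/
theorem leftover {W : Type} [Finite W] {V : Type} [Finite V] (H : SimpleGraph W)
    (hbip : H.IsBipartite) (hbal : AllBipartitionsBalanced H) (G : SimpleGraph V) (A : Set V)
    (hB : ∀ x y, G.Adj x y → x ∉ A → y ∈ A)
    (hfree : ∀ φ : W → V, Function.Injective φ → (∀ v w, H.Adj v w → G.Adj (φ v) (φ w)) →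
      ∃ v, φ v ∉ A)
    {r : ℕ} (χ : G.edgeSet → Fin r) (z : Fin r)
    (hχ : ∀ e : G.edgeSet, χ e = z ↔ ∀ x ∈ (e : Sym2 V), x ∈ A)
    (P : Set G.Subgraph) (hP : IsMonoPacking H χ P) :
    A.ncard ≤ Aᶜ.ncard + (uncovered P).ncard := by
  classical
  -- each member of the packing is balanced
  have hbalK : ∀ K ∈ P, (K.verts ∩ A).ncard = (K.verts ∩ Aᶜ).ncard := by
    intro K hK
    obtain ⟨φ⟩ := hP.iso K hK
    obtain ⟨i, hi⟩ := hP.mono K hK
    have hadj : ∀ v w, H.Adj v w → K.Adj (φ v) (φ w) := by
      intro v w h
      exact (φ.map_adj_iff.2 h)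
    have hinj : Function.Injective (fun v => (φ v : V)) :=
      Subtype.val_injective.comp φ.injective
    by_cases hiz : i = z
    · -- all edges inside `A`
      exfalso
      obtain ⟨v, hv⟩ := hfree (fun v => (φ v : V)) hinj (fun v w h => (hadj v w h).adj_sub)
      obtain ⟨w, hw⟩ := exists_adj H hbip hbal v
      have hK' := hadj v w hw
      have h1 := hi ⟨s((φ v : V), (φ w : V)), hK'.adj_sub⟩ hK'
      rw [hiz, hχ] at h1
      exact hv (h1 _ (by simp))
    · -- all edges between `A` and its complement
      have hcut : ∀ v w, H.Adj v w → ((φ v : V) ∈ A ↔ (φ w : V) ∉ A) := by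
        intro v w hw
        have hK' := hadj v w hw
        have h1 := hi ⟨s((φ v : V), (φ w : V)), hK'.adj_sub⟩ hK'
        have h2 : ¬ (∀ x ∈ s((φ v : V), (φ w : V)), x ∈ A) := by
          intro h
          exact hiz (h1 ▸ ((hχ ⟨s((φ v : V), (φ w : V)), hK'.adj_sub⟩).2 h))
        have h3 : ¬ ((φ v : V) ∈ A ∧ (φ w : V) ∈ A) := by
          intro h
          apply h2
          intro x hx
          rcases Sym2.mem_iff.1 hx with rfl | rfl
          · exact h.1
          · exact h.2
        have h4 := hB _ _ hK'.adj_sub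
        tauto
      have hb := hbal {v | (φ v : V) ∈ A} hcut
      have e1 : K.verts ∩ A = (fun v => (φ v : V)) '' {v | (φ v : V) ∈ A} := by
        ext x
        constructor
        · rintro ⟨hx, hxA⟩
          refine ⟨φ.symm ⟨x, hx⟩, ?_, ?_⟩
          · simpa using hxA
          · simp
        · rintro ⟨v, hv, rfl⟩
          exact ⟨(φ v).2, hv⟩
      have e2 : K.verts ∩ Aᶜ = (fun v => (φ v : V)) '' {v | (φ v : V) ∈ A}ᶜ := by
        ext x
        constructor
        · rintro ⟨hx, hxA⟩
          refine ⟨φ.symm ⟨x, hx⟩, ?_, ?_⟩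
          · simpa using hxA
          · simp
        · rintro ⟨v, hv, rfl⟩
          exact ⟨(φ v).2, hv⟩
      rw [e1, e2, Set.ncard_image_of_injective _ hinj, Set.ncard_image_of_injective _ hinj, hb]
  -- sum over the packing
  have hfin : P.Finite := Set.toFinite P
  have hsum : ∀ B : Set V, ((⋃ K ∈ P, K.verts) ∩ B).ncard
      = ∑ K ∈ hfin.toFinset, (K.verts ∩ B).ncard := by
    intro B
    let _ : Fintype V := Fintype.ofFinite V
    have h1 : ((⋃ K ∈ P, K.verts) ∩ B) =
        ((hfin.toFinset.biUnion (fun K => (K.verts ∩ B).toFinset) : Finset V) : Set V) := by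
      ext x
      simp only [Set.mem_inter_iff, Set.mem_iUnion, exists_prop, Finset.coe_biUnion,
        Set.coe_toFinset, Set.Finite.coe_toFinset]
      constructor
      · rintro ⟨⟨K, hK, hx⟩, hxB⟩
        exact ⟨K, hK, hx, hxB⟩
      · rintro ⟨K, hK, hx, hxB⟩
        exact ⟨⟨K, hK, hx⟩, hxB⟩
    rw [h1, Set.ncard_coe_finset, Finset.card_biUnion]
    · refine Finset.sum_congr rfl (fun K _ => ?_)
      rw [← Set.ncard_eq_toFinset_card']
    · intro K hK L hL hKL
      have := hP.disj K (hfin.mem_toFinset.1 (Finset.mem_coe.1 hK)) L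
        (hfin.mem_toFinset.1 (Finset.mem_coe.1 hL)) hKL
      simp only [Function.onFun]
      rw [Set.disjoint_toFinset]
      exact this.mono Set.inter_subset_left Set.inter_subset_left
  have e : ((⋃ K ∈ P, K.verts) ∩ A).ncard = ((⋃ K ∈ P, K.verts) ∩ Aᶜ).ncard := by
    rw [hsum, hsum]
    exact Finset.sum_congr rfl (fun K hK => hbalK K (hfin.mem_toFinset.1 hK))
  have h1 : ((⋃ K ∈ P, K.verts) ∩ Aᶜ).ncard ≤ Aᶜ.ncard :=
    Set.ncard_le_ncard Set.inter_subset_right (Set.toFinite _)
  have h2 : A ⊆ ((⋃ K ∈ P, K.verts) ∩ A) ∪ uncovered P := by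
    intro x hx
    by_cases hxu : x ∈ uncovered P
    · exact Or.inr hxu
    · left
      simp only [uncovered, Set.mem_ofPred_eq, not_forall, not_not] at hxu
      obtain ⟨K, hK, hxK⟩ := hxu
      exact ⟨Set.mem_biUnion hK hxK, hx⟩
  have h3 := (Set.ncard_le_ncard h2 (Set.toFinite _)).trans (Set.ncard_union_le _ _)
  omega


/-- The host graph: the Cayley graph, joined completely to an independent set of `k` vertices. -/
def host (s g k : ℕ) : SimpleGraph (Equiv.Perm (RW s g) ⊕ Fin k) where
  Adj x y := match x, y with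
    | Sum.inl σ, Sum.inl τ => (cay s g).Adj σ τ
    | Sum.inl _, Sum.inr _ => True
    | Sum.inr _, Sum.inl _ => True
    | Sum.inr _, Sum.inr _ => False
  symm := ⟨by
    rintro (σ | x) (τ | y) h
    · exact SimpleGraph.Adj.symm (G := cay s g) h
    · trivial
    · trivial
    · exact h.elim⟩
  loopless := ⟨by
    rintro (σ | x) h
    · exact (cay s g).loopless.irrefl σ h
    · exact h.elim⟩

theorem host_degree {s g : ℕ} (hg : 0 < g) (hs : s ≤ Nat.card (Equiv.Perm (RW s g)))
    (x : Equiv.Perm (RW s g) ⊕ Fin (Nat.card (Equiv.Perm (RW s g)) - s)) :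
    ((host s g _).neighborSet x).ncard = Nat.card (Equiv.Perm (RW s g)) := by
  rcases x with σ | b
  · have h : (host s g _).neighborSet (Sum.inl σ) =
        Sum.inl '' ((cay s g).neighborSet σ) ∪
          Sum.inr '' (Set.univ : Set (Fin (Nat.card (Equiv.Perm (RW s g)) - s))) := by
      ext y
      rcases y with τ | y
      · simp [host]
      · simp [host]
    rw [h, Set.ncard_union_eq, Set.ncard_image_of_injective _ Sum.inl_injective,
      Set.ncard_image_of_injective _ Sum.inr_injective, cay_degree hg, Set.ncard_univ,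
      Nat.card_eq_fintype_card, Fintype.card_fin]
    · omega
    · rw [Set.disjoint_left]
      rintro x ⟨a, -, rfl⟩ ⟨b, -, hb⟩
      simp at hb
  · have h : (host s g _).neighborSet (Sum.inr b) =
        Sum.inl '' (Set.univ : Set (Equiv.Perm (RW s g))) := by
      ext y
      rcases y with τ | y
      · simp [host]
      · simp [host]
    rw [h, Set.ncard_image_of_injective _ Sum.inl_injective, Set.ncard_univ]

theorem general (W : Type) [Finite W] (H : SimpleGraph W) (hbip : H.IsBipartite)
    (hbal : AllBipartitionsBalanced H) (hcyc : ¬ H.IsAcyclic)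
    (r : ℕ) (hr : 2 ≤ r) (c : ℝ) (hc : c ≤ 1 / 2) : ¬ BoundedLeftover H r c := by
  classical
  rintro ⟨C, hC0, hC⟩
  -- a cycle of `H`
  obtain ⟨w0, p, hp⟩ : ∃ (v : W) (p : H.Walk v v), p.IsCycle := by
    by_contra hcon
    push Not at hcon
    exact hcyc (fun v p hp => hcon v p hp)
  set g := p.length with hg
  have hg0 : 0 < g := by
    have := hp.three_le_length
    omega
  set s := ⌈C⌉₊ + 1 with hs
  have hsC : C < s := by
    have := Nat.le_ceil C
    rw [hs]; push_cast; linarith
  set m := Nat.card (Equiv.Perm (RW s g)) with hm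
  have hsm : s ≤ m := by
    rw [← cay_degree hg0 (1 : Equiv.Perm (RW s g)), hm, ← Set.ncard_univ]
    exact Set.ncard_le_ncard (Set.subset_univ _) (Set.toFinite _)
  let V0 := Equiv.Perm (RW s g) ⊕ Fin (m - s)
  let e : V0 ≃ Fin (Nat.card V0) := Finite.equivFin V0
  let G : SimpleGraph (Fin (Nat.card V0)) := (host s g (m - s)).comap e.symm
  have hcard : Nat.card V0 = m + (m - s) := by
    simp [V0, Nat.card_sum, hm]
  have hdeg : ∀ v, (G.neighborSet v).ncard = m := by
    intro v
    have h1 : G.neighborSet v = e '' ((host s g (m - s)).neighborSet (e.symm v)) := by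
      ext x
      constructor
      · intro hx
        exact ⟨e.symm x, hx, by simp⟩
      · rintro ⟨y, hy, rfl⟩
        change (host s g (m - s)).Adj (e.symm v) (e.symm (e y))
        simpa using hy
    rw [h1, Set.ncard_image_of_injective _ e.injective]
    exact host_degree hg0 hsm _
  have hdens : c * (Nat.card V0 : ℝ) ≤ m := by
    rw [hcard]
    have h1 : ((m + (m - s) : ℕ) : ℝ) ≤ 2 * m := by
      have : m + (m - s) ≤ 2 * m := by omega
      exact_mod_cast this
    have h2 : (0 : ℝ) ≤ ((m + (m - s) : ℕ) : ℝ) := Nat.cast_nonneg _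
    nlinarith
  -- the side of the Cayley graph
  let A : Set (Fin (Nat.card V0)) := e '' (Set.range Sum.inl)
  have hAmem : ∀ x : V0, e x ∈ A ↔ x ∈ Set.range (Sum.inl : Equiv.Perm (RW s g) → V0) := by
    intro x
    exact e.injective.mem_set_image
  let χ : G.edgeSet → Fin r := fun a =>
    if ∀ x ∈ (a : Sym2 (Fin (Nat.card V0))), x ∈ A then ⟨0, by omega⟩ else ⟨1, by omega⟩
  obtain ⟨P, hP, hle⟩ := hC (Nat.card V0) m G hdeg hdens χ
  have hmain := leftover H hbip hbal G A ?_ ?_ χ ⟨0, by omega⟩ ?_ P hP
  · have hA1 : A.ncard = m := by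
      rw [Set.ncard_image_of_injective _ e.injective, ← Set.image_univ,
        Set.ncard_image_of_injective _ Sum.inl_injective, Set.ncard_univ]
    have hA2 : A.ncard + Aᶜ.ncard = Nat.card V0 := by
      rw [Set.ncard_add_ncard_compl]; simp
    have hge : s ≤ (uncovered P).ncard := by omega
    have : (s : ℝ) ≤ ((uncovered P).ncard : ℝ) := by exact_mod_cast hge
    linarith
  · intro x y hxy hx
    obtain ⟨x, rfl⟩ := e.surjective x
    obtain ⟨y, rfl⟩ := e.surjective y
    have hxy' : (host s g (m - s)).Adj x y := by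
      have : (host s g (m - s)).Adj (e.symm (e x)) (e.symm (e y)) := hxy
      simpa using this
    rw [hAmem] at hx ⊢
    rcases x with σ | x
    · exact absurd ⟨σ, rfl⟩ hx
    · rcases y with τ | y
      · exact ⟨τ, rfl⟩
      · exact hxy'.elim
  · intro φ hφ hadj
    by_contra hcon
    push Not at hcon
    have hex : ∀ w : W, ∃ σ : Equiv.Perm (RW s g), e (Sum.inl σ) = φ w := by
      intro w
      obtain ⟨x, ⟨σ, rfl⟩, hx⟩ := hcon w
      exact ⟨σ, hx⟩
    choose ψ hψ using hex
    let f : H →g cay s g :=
      { toFun := ψ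
        map_rel' := by
          intro a b hab
          have h1 := hadj a b hab
          rw [← hψ a, ← hψ b] at h1
          have h2 : (host s g (m - s)).Adj (e.symm (e (Sum.inl (ψ a)))) (e.symm (e (Sum.inl (ψ b)))) :=
            h1
          rw [e.symm_apply_apply, e.symm_apply_apply] at h2
          exact h2 }
    have hf : Function.Injective f := by
      intro a b hab
      have hab' : ψ a = ψ b := hab
      apply hφ
      rw [← hψ a, ← hψ b, hab']
    have hcy := cay_cycle hg0 (p.map f) (hp.map hf)
    rw [Walk.length_map] at hcy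
    omega
  · intro a
    by_cases h : ∀ x ∈ (a : Sym2 (Fin (Nat.card V0))), x ∈ A
    · simp only [χ, if_pos h]
      exact iff_of_true trivial h
    · simp only [χ, if_neg h]
      constructor
      · intro h1
        simp at h1
      · intro h1
        exact absurd h1 h

/-- `C_4` is bipartite. -/
theorem c4_bip : (cycleGraph 4).IsBipartite := by
  refine ⟨Coloring.mk (fun v : Fin 4 => (⟨v.1 % 2, by omega⟩ : Fin 2)) ?_⟩
  decide

theorem c4_bal : AllBipartitionsBalanced (cycleGraph 4) := by
  classical
  intro A hA
  have h01 := hA 0 1 (by decide)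
  have h12 := hA 1 2 (by decide)
  have h23 := hA 2 3 (by decide)
  by_cases h0 : (0 : Fin 4) ∈ A
  · have e1 : A = {0, 2} := by
      ext x
      fin_cases x <;> simp <;> tauto
    have e2 : Aᶜ = {1, 3} := by
      ext x
      fin_cases x <;> simp <;> tauto
    rw [e2, e1, Set.ncard_pair (by decide), Set.ncard_pair (by decide)]
  · have e1 : A = {1, 3} := by
      ext x
      fin_cases x <;> simp <;> tauto
    have e2 : Aᶜ = {0, 2} := by
      ext x
      fin_cases x <;> simp <;> tauto
    rw [e2, e1, Set.ncard_pair (by decide), Set.ncard_pair (by decide)]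

theorem c4_cyc : ¬ (cycleGraph 4).IsAcyclic := by
  intro h
  let p : (cycleGraph 4).Walk 0 0 :=
    Walk.cons (v := 1) (by decide) (Walk.cons (v := 2) (by decide)
      (Walk.cons (v := 3) (by decide) (Walk.cons (v := 0) (by decide) Walk.nil)))
  have hp : p.IsCycle := by
    simp [p, Walk.isCycle_def, Walk.isTrail_def]
  exact h p hp

/-- **Disproof of Q1, in a strong form.** The assertion of Q1 is false. More precisely, its conclusion
fails for every finite bipartite graph `H` that contains a cycle and all of whose bipartitions are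
balanced (for example `C_4`), every number `r ≥ 2` of colours and every density `c ≤ 1/2`. -/
theorem result :
    ¬ BucicQ1 ∧
    ∀ (W : Type) [Finite W] (H : SimpleGraph W), H.IsBipartite → AllBipartitionsBalanced H →
      ¬ H.IsAcyclic → ∀ r : ℕ, 2 ≤ r → ∀ c : ℝ, 0 < c → c ≤ 1 / 2 → ¬ BoundedLeftover H r c := by
  refine ⟨fun h => ?_, fun W _ H hb hbal hcyc r hr c _ hc => general W H hb hbal hcyc r hr c hc⟩
  exact general (Fin 4) (cycleGraph 4) c4_bip c4_bal c4_cyc 2 le_rfl (1 / 2) le_rfl
    (h (Fin 4) (cycleGraph 4) c4_bip 2 le_rfl (1 / 2) (by norm_num) (by norm_num))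

end Pool.Agent.Results.MP_b9e70b_co.BucicFails
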